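import Mathlib
import Pool.Agent.Lib.helper30.SphMotion

set_option autoImplicit false

namespace Pool.Agent.Results.MP_9a0e7c_co.NoMotionContraction

open Pool.Agent.Lib.Helper30.SphMotion

theorem result :
    ∃ p q : Fin 8 → EuclideanSpace ℝ (Fin 3),
      (∀ i, ‖p i‖ = 1) ∧ (∀ i, ‖q i‖ = 1) ∧
      (∀ i j, Real.arccos (inner ℝ (q i) (q j)) ≤ Real.arccos (inner ℝ (p i) (p j))) ∧
      ∀ ι : EuclideanSpace ℝ (Fin 3) →ₗᵢ[ℝ] EuclideanSpace ℝ (Fin 5),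
        ¬ ∃ m : ℝ → Fin 8 → EuclideanSpace ℝ (Fin 5),
          m 0 = (fun i => ι (p i)) ∧ m 1 = (fun i => ι (q i)) ∧
          ContinuousOn m (Set.Icc 0 1) ∧
          (∀ t ∈ Set.Icc (0 : ℝ) 1, ∀ i, ‖m t i‖ = 1) ∧
          ∀ i j, MonotoneOn (fun t => Real.arccos (inner ℝ (m t i) (m t j))) (Set.Icc 0 1) ∨
            AntitoneOn (fun t => Real.arccos (inner ℝ (m t i) (m t j))) (Set.Icc 0 1) := by
  refine ⟨P, Q, norm_P, norm_Q, fun i j => Real.arccos_le_arccos (inner_P_le_Q i j), ?_⟩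
  rintro ι ⟨m, h0, h1, hc, hn, hm⟩
  refine key ι m h0 h1 hc ?_
  intro i j hij t ht
  have z : (0 : ℝ) ∈ Set.Icc (0 : ℝ) 1 := ⟨le_rfl, zero_le_one⟩
  have hb : ∀ s ∈ Set.Icc (0 : ℝ) 1, inner ℝ (m s i) (m s j) ∈ Set.Icc (-1 : ℝ) 1 := by
    intro s hs
    have := abs_real_inner_le_norm (m s i) (m s j)
    rw [hn s hs i, hn s hs j, mul_one] at this
    exact abs_le.1 this
  have e2 := const_of_mono (hm i j) (by simp only [hij]) ht
  exact Real.arccos_injOn (hb t ht) (hb 0 z) e2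

end Pool.Agent.Results.MP_9a0e7c_co.NoMotionContraction
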